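import Pool.Agent.H97.IM.Gad

set_option autoImplicit false

namespace Pool.Agent.H97.IM

open Polynomial

/-- Parallel: colourings of the union are pairs. -/
def eqPar {A B C : Type} (P : (A → C) → Prop) (Q : (B → C) → Prop) :
    {f : A ⊕ B → C // P (fun i => f (Sum.inl i)) ∧ Q (fun i => f (Sum.inr i))} ≃
      {f : A → C // P f} × {f : B → C // Q f} where
  toFun f := (⟨fun i => f.1 (Sum.inl i), f.2.1⟩, ⟨fun i => f.1 (Sum.inr i), f.2.2⟩)
  invFun p := ⟨Sum.elim p.1.1 p.2.1, p.1.2, p.2.2⟩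
  left_inv f := by
    apply Subtype.ext
    funext i
    cases i <;> rfl
  right_inv p := rfl

/-- Series: the colour of the middle vertex, and a pair. -/
def eqSer {A B C : Type} (P : C → (A → C) → Prop) (Q : C → (B → C) → Prop) :
    {f : Option (A ⊕ B) → C // P (f none) (fun i => f (some (Sum.inl i))) ∧
      Q (f none) (fun i => f (some (Sum.inr i)))} ≃
      Σ z : C, {f : A → C // P z f} × {f : B → C // Q z f} where
  toFun f := ⟨f.1 none, ⟨fun i => f.1 (some (Sum.inl i)), f.2.1⟩, ⟨fun i => f.1 (some (Sum.inr i)), f.2.2⟩⟩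
  invFun p := ⟨fun o => Option.elim o p.1 (Sum.elim p.2.1.1 p.2.2.1), p.2.1.2, p.2.2.2⟩
  left_inv f := by
    apply Subtype.ext
    funext i
    rcases i with _ | i
    · rfl
    · cases i <;> rfl
  right_inv p := rfl

/-- The bridge gadget. -/
def eqW {C : Type} (x y : C) :
    {f : Bool → C // f false ≠ x ∧ f false ≠ y ∧ f true ≠ x ∧ f true ≠ y ∧ f false ≠ f true} ≃
      Σ p : {p : C // p ≠ x ∧ p ≠ y}, {q : C // q ≠ x ∧ q ≠ y ∧ q ≠ p.1} where
  toFun f := ⟨⟨f.1 false, f.2.1, f.2.2.1⟩, ⟨f.1 true, f.2.2.2.1, f.2.2.2.2.1, f.2.2.2.2.2.symm⟩⟩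
  invFun p := ⟨fun b => if b then p.2.1 else p.1.1,
    by simpa using ⟨p.1.2.1, p.1.2.2, p.2.2.1, p.2.2.2.1, p.2.2.2.2.symm⟩⟩
  left_inv f := by
    apply Subtype.ext
    funext i
    cases i <;> rfl
  right_inv p := rfl

theorem card_avoid {C : Type} [Fintype C] [DecidableEq C] (S : Finset C) (P : C → Prop)
    (h : ∀ q, P q ↔ q ∉ S) : (Nat.card {q : C // P q} : ℤ) = (Fintype.card C : ℤ) - (S.card : ℤ) := by
  have h1 : Nat.card {q : C // P q} = Sᶜ.card := by
    rw [Nat.card_congr (Equiv.subtypeEquivRight (fun q => (h q).trans Finset.mem_compl.symm)),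
      Nat.card_eq_fintype_card, Fintype.card_coe]
  rw [h1, Finset.card_compl, Nat.cast_sub (Finset.card_le_univ S)]

theorem card_W {C : Type} [Fintype C] [DecidableEq C] (x y : C) :
    (Nat.card {f : Bool → C // f false ≠ x ∧ f false ≠ y ∧ f true ≠ x ∧ f true ≠ y ∧ f false ≠ f true} : ℤ) =
      if x = y then ((Fintype.card C : ℤ) - 1) * ((Fintype.card C : ℤ) - 2)
      else ((Fintype.card C : ℤ) - 2) * ((Fintype.card C : ℤ) - 3) := by
  classical
  rw [Nat.card_congr (eqW x y), Nat.card_sigma, Nat.cast_sum]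
  by_cases hxy : x = y
  · subst hxy
    have h2 : ∀ p : {p : C // p ≠ x ∧ p ≠ x}, (Nat.card {q : C // q ≠ x ∧ q ≠ x ∧ q ≠ p.1} : ℤ) =
        (Fintype.card C : ℤ) - 2 := by
      intro p
      rw [card_avoid {x, p.1} _ (by intro q; simp), Finset.card_pair p.2.1.symm]
      rfl
    simp only [h2, Finset.sum_const, Finset.card_univ, nsmul_eq_mul, if_true]
    rw [← Nat.card_eq_fintype_card, card_avoid {x} _ (by intro q; simp), Finset.card_singleton]
    norm_num
  · have h2 : ∀ p : {p : C // p ≠ x ∧ p ≠ y}, (Nat.card {q : C // q ≠ x ∧ q ≠ y ∧ q ≠ p.1} : ℤ) =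
        (Fintype.card C : ℤ) - 3 := by
      intro p
      have h3 : ({x, y, p.1} : Finset C).card = 3 := by
        rw [Finset.card_eq_three]
        exact ⟨x, y, p.1, hxy, p.2.1.symm, p.2.2.symm, rfl⟩
      rw [card_avoid {x, y, p.1} _ (by intro q; simp), h3]
      rfl
    simp only [h2, Finset.sum_const, Finset.card_univ, nsmul_eq_mul, if_neg hxy]
    rw [← Nat.card_eq_fintype_card, card_avoid {x, y} _ (by intro q; simp), Finset.card_pair hxy]
    norm_num

theorem card_ok {C : Type} [Fintype C] [DecidableEq C] (t : T) : ∀ x y : C,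
    (Nat.card {f : I t → C // ok t x y f} : ℤ) =
      if x = y then (AB (Fintype.card C : ℤ) t).1 else (AB (Fintype.card C : ℤ) t).2 := by
  classical
  induction t with
  | e =>
    intro x y
    simp only [AB]
    by_cases hxy : x = y
    · have h1 : IsEmpty {f : I T.e → C // ok T.e x y f} := ⟨fun f => f.2 hxy⟩
      rw [if_pos hxy, Nat.card_of_isEmpty]
      rfl
    · have h1 : Nat.card {f : I T.e → C // ok T.e x y f} = 1 := by
        rw [Nat.card_eq_one_iff_unique]
        exact ⟨⟨fun f g => Subtype.ext (funext fun i => Empty.elim i)⟩, ⟨⟨fun i => Empty.elim i, hxy⟩⟩⟩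
      rw [if_neg hxy, h1]
      rfl
  | w =>
    intro x y
    exact card_W x y
  | par a b iha ihb =>
    intro x y
    have h := Nat.card_congr (eqPar (C := C) (ok a x y) (ok b x y))
    rw [Nat.card_prod] at h
    have h' : Nat.card {f : I (T.par a b) → C // ok (T.par a b) x y f} = _ := h
    rw [h', Nat.cast_mul, iha, ihb]
    simp only [AB]
    split_ifs <;> rfl
  | ser a b iha ihb =>
    intro x y
    haveI := finI a
    haveI := finI b
    have h := Nat.card_congr (eqSer (C := C) (fun z => ok a x z) (fun z => ok b z y))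
    rw [Nat.card_sigma] at h
    have h' : Nat.card {f : I (T.ser a b) → C // ok (T.ser a b) x y f} = _ := h
    rw [h', Nat.cast_sum]
    simp only [Nat.card_prod, Nat.cast_mul, iha, ihb, AB]
    rw [sum_ite_ite]

end Pool.Agent.H97.IM
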