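import Mathlib

/-!
Two-terminal graphs built from edges, the bridge gadget `w` (two adjacent internal vertices, both joined to
both terminals) and the operations parallel (`par`) and series (`ser`), and their numbers of colourings.
-/

set_option autoImplicit false

namespace Pool.Agent.H97.IM

open Polynomial

/-- Expressions for two-terminal graphs. -/
inductive T : Type
  | e : T
  | w : T
  | par : T → T → T
  | ser : T → T → T

/-- Internal vertices. -/
def I : T → Type
  | T.e => Empty
  | T.w => Bool
  | T.par a b => I a ⊕ I b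
  | T.ser a b => Option (I a ⊕ I b)

/-- `f` is a proper colouring of the internal vertices, the terminals being coloured `x`, `y`. -/
def ok {C : Type} : (t : T) → C → C → (I t → C) → Prop
  | T.e, x, y, _ => x ≠ y
  | T.w, x, y, f => f false ≠ x ∧ f false ≠ y ∧ f true ≠ x ∧ f true ≠ y ∧ f false ≠ f true
  | T.par a b, x, y, f => ok a x y (fun i => f (Sum.inl i)) ∧ ok b x y (fun i => f (Sum.inr i))
  | T.ser a b, x, y, f => ok a x (f none) (fun i => f (some (Sum.inl i))) ∧
      ok b (f none) y (fun i => f (some (Sum.inr i)))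

/-- The edges, for vertices in `V` with terminals `s`, `t'` and internal vertices `g i`. -/
def R {V : Type} : (t : T) → V → V → (I t → V) → V → V → Prop
  | T.e, s, t', _ => fun u v => u = s ∧ v = t'
  | T.w, s, t', g => fun u v => (u = g false ∧ v = s) ∨ (u = g false ∧ v = t') ∨ (u = g true ∧ v = s) ∨
      (u = g true ∧ v = t') ∨ (u = g false ∧ v = g true)
  | T.par a b, s, t', g => fun u v => R a s t' (fun i => g (Sum.inl i)) u v ∨
      R b s t' (fun i => g (Sum.inr i)) u v
  | T.ser a b, s, t', g => fun u v => R a s (g none) (fun i => g (some (Sum.inl i))) u v ∨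
      R b (g none) t' (fun i => g (some (Sum.inr i))) u v

theorem R_iff {V C : Type} (c : V → C) (t : T) : ∀ (s t' : V) (g : I t → V),
    (∀ u v, R t s t' g u v → c u ≠ c v) ↔ ok t (c s) (c t') (fun i => c (g i)) := by
  induction t with
  | e =>
    intro s t' g
    simp [R, ok]
  | w =>
    intro s t' g
    constructor
    · intro h
      refine ⟨h _ _ ?_, h _ _ ?_, h _ _ ?_, h _ _ ?_, h _ _ ?_⟩ <;> simp [R]
    · rintro ⟨h1, h2, h3, h4, h5⟩ u v huv
      rcases huv with ⟨rfl, rfl⟩ | ⟨rfl, rfl⟩ | ⟨rfl, rfl⟩ | ⟨rfl, rfl⟩ | ⟨rfl, rfl⟩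
      · exact h1
      · exact h2
      · exact h3
      · exact h4
      · exact h5
  | par a b iha ihb =>
    intro s t' g
    simp only [R, ok]
    rw [← iha, ← ihb]
    constructor
    · intro h
      exact ⟨fun u v huv => h u v (Or.inl huv), fun u v huv => h u v (Or.inr huv)⟩
    · rintro ⟨h1, h2⟩ u v (huv | huv)
      · exact h1 u v huv
      · exact h2 u v huv
  | ser a b iha ihb =>
    intro s t' g
    simp only [R, ok]
    rw [← iha, ← ihb]
    constructor
    · intro h
      exact ⟨fun u v huv => h u v (Or.inl huv), fun u v huv => h u v (Or.inr huv)⟩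
    · rintro ⟨h1, h2⟩ u v (huv | huv)
      · exact h1 u v huv
      · exact h2 u v huv

theorem R_ne {V : Type} (t : T) : ∀ (s t' : V) (g : I t → V), s ≠ t' → Function.Injective g →
    (∀ i, g i ≠ s) → (∀ i, g i ≠ t') → ∀ u v, R t s t' g u v → u ≠ v := by
  induction t with
  | e =>
    rintro s t' g hst - - - u v ⟨rfl, rfl⟩
    exact hst
  | w =>
    rintro s t' g hst hg hs ht u v huv
    rcases huv with ⟨rfl, rfl⟩ | ⟨rfl, rfl⟩ | ⟨rfl, rfl⟩ | ⟨rfl, rfl⟩ | ⟨rfl, rfl⟩
    · exact hs _
    · exact ht _
    · exact hs _
    · exact ht _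
    · intro h
      exact Bool.false_ne_true (hg h)
  | par a b iha ihb =>
    rintro s t' g hst hg hs ht u v (huv | huv)
    · exact iha s t' _ hst (fun i j h => Sum.inl.inj (hg h)) (fun i => hs _) (fun i => ht _) u v huv
    · exact ihb s t' _ hst (fun i j h => Sum.inr.inj (hg h)) (fun i => hs _) (fun i => ht _) u v huv
  | ser a b iha ihb =>
    rintro s t' g hst hg hs ht u v (huv | huv)
    · refine iha s (g none) _ (hs none).symm (fun i j h => Sum.inl.inj (Option.some.inj (hg h)))
        (fun i => hs _) (fun i h => ?_) u v huv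
      exact absurd (hg h) (by simp)
    · refine ihb (g none) t' _ (ht none) (fun i j h => Sum.inr.inj (Option.some.inj (hg h)))
        (fun i h => ?_) (fun i => ht _) u v huv
      exact absurd (hg h) (by simp)

instance finI : (t : T) → Finite (I t)
  | T.e => inferInstanceAs (Finite Empty)
  | T.w => inferInstanceAs (Finite Bool)
  | T.par a b => by
    haveI := finI a
    haveI := finI b
    exact inferInstanceAs (Finite (I a ⊕ I b))
  | T.ser a b => by
    haveI := finI a
    haveI := finI b
    exact inferInstanceAs (Finite (Option (I a ⊕ I b)))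

/-- The pair: numbers of extensions for equal and for different colours of the terminals, at `z`. -/
def AB {K : Type} [CommRing K] (z : K) : T → K × K
  | T.e => (0, 1)
  | T.w => ((z - 1) * (z - 2), (z - 2) * (z - 3))
  | T.par a b => ((AB z a).1 * (AB z b).1, (AB z a).2 * (AB z b).2)
  | T.ser a b => ((AB z a).1 * (AB z b).1 + (z - 1) * ((AB z a).2 * (AB z b).2),
      (AB z a).1 * (AB z b).2 + (AB z a).2 * (AB z b).1 + (z - 2) * ((AB z a).2 * (AB z b).2))

theorem AB_map {K L : Type} [CommRing K] [CommRing L] (φ : K →+* L) (z : K) (t : T) :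
    AB (φ z) t = (φ (AB z t).1, φ (AB z t).2) := by
  have h2 : φ 2 = 2 := map_ofNat φ 2
  have h3 : φ 3 = 3 := map_ofNat φ 3
  induction t with
  | e => simp [AB]
  | w => simp only [AB, map_mul, map_sub, map_one, h2, h3]
  | par a b iha ihb => simp only [AB, iha, ihb, map_mul]
  | ser a b iha ihb => simp only [AB, iha, ihb, map_mul, map_add, map_sub, map_one, h2]

theorem sum_ite_ite {C : Type} [Fintype C] [DecidableEq C] (x y : C) (a1 b1 a2 b2 : ℤ) :
    ∑ z : C, (if x = z then a1 else b1) * (if z = y then a2 else b2) =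
      if x = y then a1 * a2 + ((Fintype.card C : ℤ) - 1) * (b1 * b2)
      else a1 * b2 + b1 * a2 + ((Fintype.card C : ℤ) - 2) * (b1 * b2) := by
  have h : ∀ z : C, (if x = z then a1 else b1) * (if z = y then a2 else b2) =
      b1 * b2 + (if x = z then (a1 - b1) * b2 else 0) + (if z = y then b1 * (a2 - b2) else 0) +
        (if x = z then (if x = y then (a1 - b1) * (a2 - b2) else 0) else 0) := by
    intro z
    by_cases h1 : x = z
    · subst h1
      by_cases h2 : x = y
      · simp only [h2, if_true]; ring
      · simp only [h2, if_true, if_false]; ring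
    · by_cases h2 : z = y
      · subst h2
        simp only [h1, if_true, if_false]; ring
      · simp only [h1, h2, if_false]; ring
  simp only [h, Finset.sum_add_distrib, Finset.sum_ite_eq, Finset.sum_ite_eq', Finset.mem_univ,
    if_true, Finset.sum_const, Finset.card_univ, nsmul_eq_mul]
  split_ifs with h3
  · ring
  · ring

end Pool.Agent.H97.IM
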