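import Pool.Agent.H97.IM.Cnt

set_option autoImplicit false

namespace Pool.Agent.H97.IM

open Polynomial

/-- The vertices: two terminals and the internal vertices. -/
abbrev V (t : T) : Type := Bool ⊕ I t

/-- The graph of the expression `t`. -/
def Gr (t : T) : SimpleGraph (V t) :=
  SimpleGraph.fromRel (R t (Sum.inl false) (Sum.inl true) Sum.inr)

theorem adj_iff (t : T) {C : Type} (c : V t → C) :
    (∀ u v, (Gr t).Adj u v → c u ≠ c v) ↔
      ok t (c (Sum.inl false)) (c (Sum.inl true)) (fun i => c (Sum.inr i)) := by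
  rw [← R_iff c t (Sum.inl false) (Sum.inl true) Sum.inr]
  constructor
  · intro h u v huv
    refine h u v ?_
    rw [Gr, SimpleGraph.fromRel_adj]
    exact ⟨R_ne t _ _ _ (by simp) Sum.inr_injective (by simp) (by simp) u v huv, Or.inl huv⟩
  · intro h u v huv
    rw [Gr, SimpleGraph.fromRel_adj] at huv
    rcases huv.2 with h1 | h1
    · exact h u v h1
    · exact (h v u h1).symm

/-- Colourings of the graph. -/
def colEquiv (t : T) (C : Type) :
    (Gr t).Coloring C ≃ Σ p : C × C, {f : I t → C // ok t p.1 p.2 f} where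
  toFun c := ⟨(c (Sum.inl false), c (Sum.inl true)), ⟨fun i => c (Sum.inr i),
    (adj_iff t c).1 (fun u v huv => c.valid huv)⟩⟩
  invFun p := SimpleGraph.Coloring.mk
    (fun v => Sum.elim (fun b => if b then p.1.2 else p.1.1) p.2.1 v)
    (fun {u v} huv => (adj_iff t _).2 p.2.2 u v huv)
  left_inv c := by
    apply RelHom.ext
    intro v
    rcases v with b | i
    · cases b <;> rfl
    · rfl
  right_inv p := rfl

/-- The chromatic polynomial. -/
noncomputable def chi (t : T) : ℤ[X] := X * ((AB X t).1 + (X - 1) * (AB X t).2)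

theorem eval_chi (t : T) (n : ℕ) : (chi t).eval (n : ℤ) = (Nat.card ((Gr t).Coloring (Fin n)) : ℤ) := by
  haveI := finI t
  have h1 := AB_map (Polynomial.evalRingHom (n : ℤ)) X t
  have h0 : (Polynomial.evalRingHom (n : ℤ)) X = (n : ℤ) := by simp
  rw [h0] at h1
  have h2 : (AB (X : ℤ[X]) t).1.eval (n : ℤ) = (AB (n : ℤ) t).1 := by rw [h1]; rfl
  have h3 : (AB (X : ℤ[X]) t).2.eval (n : ℤ) = (AB (n : ℤ) t).2 := by rw [h1]; rfl
  rw [Nat.card_congr (colEquiv t (Fin n)), Nat.card_sigma, Nat.cast_sum]
  simp only [card_ok, Fintype.card_fin]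
  rw [Fintype.sum_prod_type]
  simp only [chi, eval_mul, eval_add, eval_sub, eval_X, eval_one, h2, h3]
  have h4 : ∀ x : Fin n, ∑ y : Fin n, (if x = y then (AB (n : ℤ) t).1 else (AB (n : ℤ) t).2) =
      (AB (n : ℤ) t).1 + ((n : ℤ) - 1) * (AB (n : ℤ) t).2 := by
    intro x
    have h5 : ∀ y : Fin n, (if x = y then (AB (n : ℤ) t).1 else (AB (n : ℤ) t).2) =
        (AB (n : ℤ) t).2 + (if x = y then (AB (n : ℤ) t).1 - (AB (n : ℤ) t).2 else 0) := by
      intro y
      split_ifs <;> ring
    simp only [h5, Finset.sum_add_distrib, Finset.sum_ite_eq, Finset.mem_univ, if_true,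
      Finset.sum_const, Finset.card_univ, Fintype.card_fin, nsmul_eq_mul]
    ring
  simp only [h4, Finset.sum_const, Finset.card_univ, Fintype.card_fin, nsmul_eq_mul]

/-- Paths. -/
def P2 : T := T.ser T.e T.e
def P3 : T := T.ser T.e P2
def P4 : T := T.ser T.e P3
def P5 : T := T.ser T.e P4

/-- The graph with 24 vertices and 30 edges. -/
def G24 : T := T.par P5 (T.par (T.ser T.w (T.par P3 P4)) (T.ser T.e (T.par P3 (T.par P4 P5))))

/-- The imaginary unit in `ℤ[i]`. -/
def gi : GaussianInt := ⟨0, 1⟩

theorem val_gi : gi * ((AB gi G24).1 + (gi - 1) * (AB gi G24).2) = 0 := by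
  decide +kernel

theorem aeval_chi : Polynomial.aeval Complex.I (chi G24) = 0 := by
  have hI : GaussianInt.toComplex gi = Complex.I := by
    simp [gi, GaussianInt.toComplex_def]
  have h1 := AB_map (Polynomial.aeval (R := ℤ) Complex.I).toRingHom X G24
  have h2 := AB_map GaussianInt.toComplex gi G24
  have h0 : (Polynomial.aeval (R := ℤ) Complex.I).toRingHom X = Complex.I := by simp
  rw [h0] at h1
  rw [hI] at h2
  have h3 : Polynomial.aeval Complex.I (AB (X : ℤ[X]) G24).1 = GaussianInt.toComplex (AB gi G24).1 := by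
    have := congrArg Prod.fst (h1.symm.trans h2)
    exact this
  have h4 : Polynomial.aeval Complex.I (AB (X : ℤ[X]) G24).2 = GaussianInt.toComplex (AB gi G24).2 := by
    have := congrArg Prod.snd (h1.symm.trans h2)
    exact this
  have h5 := congrArg GaussianInt.toComplex val_gi
  simp only [map_mul, map_add, map_sub, map_one, hI, map_zero] at h5
  simp only [chi, map_mul, map_add, map_sub, map_one, aeval_X, h3, h4]
  exact h5

end Pool.Agent.H97.IM
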